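import Mathlib

/-!
# A Berge graph with no even pair and no odd pair of maximal cliques, in it or in its complement

`G = H[H]` is the lexicographic product of `H = L(K_{3,3} ∖ e)` with itself.
-/

namespace Pool.Agent.Results.MP_42d775_co.Counterexample

open SimpleGraph

/-! ## The notions of the question -/

/-- `G` is Berge: it has no induced subgraph which is an odd cycle of length at least `4`, and no
induced subgraph whose complement is an odd cycle of length at least `4`. -/
def Berge {V : Type} (G : SimpleGraph V) : Prop :=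
  ∀ n : ℕ, 4 ≤ n → Odd n → IsEmpty (cycleGraph n ↪g G) ∧ IsEmpty ((cycleGraph n)ᶜ ↪g G)

/-- `{x, y}` is an even pair of `G`: two distinct non-adjacent vertices such that every induced
path between them has even length (an induced path of length `n` is an embedding of the path with
`n + 1` vertices as an induced subgraph). -/
def EvenPair {V : Type} (G : SimpleGraph V) (x y : V) : Prop :=
  x ≠ y ∧ ¬ G.Adj x y ∧
    ∀ (n : ℕ) (p : pathGraph (n + 1) ↪g G), p 0 = x → p (Fin.last n) = y → Even n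

/-- The pair `{K₁, K₂}` of sets of vertices is an odd pair: every induced path with one end in
`K₁`, the other end in `K₂` and all its other vertices outside `K₁ ∪ K₂` has odd length (a single
vertex of `K₁ ∩ K₂` is such a path of length `0`). -/
def OddPair {V : Type} (G : SimpleGraph V) (K₁ K₂ : Set V) : Prop :=
  ∀ (n : ℕ) (p : pathGraph (n + 1) ↪g G), p 0 ∈ K₁ → p (Fin.last n) ∈ K₂ →
    (∀ i : Fin (n + 1), i ≠ 0 → i ≠ Fin.last n → p i ∉ K₁ ∪ K₂) → Odd n

/-! ## Lexicographic products -/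

/-- The lexicographic product `A[B]`. -/
def lex {α β : Type} (A : SimpleGraph α) (B : SimpleGraph β) : SimpleGraph (α × β) where
  Adj x y := A.Adj x.1 y.1 ∨ (x.1 = y.1 ∧ B.Adj x.2 y.2)
  symm := ⟨by
    rintro x y (h | ⟨h, h'⟩)
    · exact Or.inl h.symm
    · exact Or.inr ⟨h.symm, h'.symm⟩⟩
  loopless := ⟨by
    rintro x (h | ⟨_, h⟩)
    · exact A.loopless.irrefl _ h
    · exact B.loopless.irrefl _ h⟩

theorem lex_adj {α β : Type} (A : SimpleGraph α) (B : SimpleGraph β) (x y : α × β) :
    (lex A B).Adj x y ↔ A.Adj x.1 y.1 ∨ (x.1 = y.1 ∧ B.Adj x.2 y.2) := Iff.rfl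

theorem compl_lex {α β : Type} (A : SimpleGraph α) (B : SimpleGraph β) :
    (lex A B)ᶜ = lex Aᶜ Bᶜ := by
  ext x y
  rw [compl_adj, lex_adj, lex_adj, compl_adj, compl_adj]
  constructor
  · rintro ⟨hne, h⟩
    push Not at h
    by_cases h1 : x.1 = y.1
    · refine Or.inr ⟨h1, ?_, h.2 h1⟩
      intro h2
      exact hne (Prod.ext h1 h2)
    · exact Or.inl ⟨h1, h.1⟩
  · rintro (⟨h1, h2⟩ | ⟨h1, h2, h3⟩)
    · refine ⟨fun h => h1 (congrArg Prod.fst h), ?_⟩
      rintro (h | ⟨h, _⟩)
      · exact h2 h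
      · exact h1 h
    · refine ⟨fun h => h2 (congrArg Prod.snd h), ?_⟩
      rintro (h | ⟨_, h⟩)
      · rw [h1] at h
        exact A.loopless.irrefl _ h
      · exact h3 h

/-! ## Cycles of length at least five are prime -/

theorem cyc_adj (m : ℕ) (u v : Fin (m + 5)) :
    (cycleGraph (m + 5)).Adj u v ↔ u - v = 1 ∨ v - u = 1 :=
  cycleGraph_adj (n := m + 3)

open Fin.NatCast in
theorem cast_ne (m k : ℕ) (h0 : 0 < k) (h5 : k < 5) : ((k : ℕ) : Fin (m + 5)) ≠ 0 := by
  intro h
  have := congrArg Fin.val h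
  rw [Fin.val_natCast, Nat.mod_eq_of_lt (by omega)] at this
  simp at this
  omega

open Fin.NatCast in
theorem cycle_prime {α : Type} (m : ℕ) (c : Fin (m + 5) → α)
    (hmod : ∀ i j k : Fin (m + 5), c i = c j → c k ≠ c i →
      ((cycleGraph (m + 5)).Adj k i → (cycleGraph (m + 5)).Adj k j)) :
    Function.Injective c ∨ ∀ i j, c i = c j := by
  by_contra hcon
  push Not at hcon
  obtain ⟨hinj, i0, j0, hij0⟩ := hcon
  rw [Function.Injective] at hinj
  push Not at hinj
  obtain ⟨i, j, hcij, hij⟩ := hinj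
  have h1 : (1 : Fin (m + 5)) ≠ 0 := by simp
  have h2 : (1 + 1 : Fin (m + 5)) ≠ 0 := by
    have := cast_ne m (1 + 1) (by norm_num) (by norm_num)
    rw [Nat.cast_add, Nat.cast_one] at this
    exact this
  have h3 : (1 + 1 + 1 : Fin (m + 5)) ≠ 0 := by
    have := cast_ne m (1 + 1 + 1) (by norm_num) (by norm_num)
    rw [Nat.cast_add, Nat.cast_add, Nat.cast_one] at this
    exact this
  have h4 : (1 + 1 + 1 + 1 : Fin (m + 5)) ≠ 0 := by
    have := cast_ne m (1 + 1 + 1 + 1) (by norm_num) (by norm_num)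
    rw [Nat.cast_add, Nat.cast_add, Nat.cast_add, Nat.cast_one] at this
    exact this
  -- a vertex of the class followed by a vertex outside
  obtain ⟨u, hu, hu'⟩ : ∃ u, c u = c i ∧ c (u + 1) ≠ c i := by
    by_contra hno
    push Not at hno
    have hall : ∀ t : ℕ, c (i + (t : Fin (m + 5))) = c i := by
      intro t
      induction t with
      | zero => simp
      | succ t ih =>
        have := hno _ ih
        rw [add_assoc] at this
        rw [Nat.cast_add, Nat.cast_one]
        exact this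
    have hall' : ∀ v, c v = c i := by
      intro v
      have := hall (v - i).val
      rw [Fin.cast_val_eq_self, add_sub_cancel] at this
      exact this
    exact hij0 ((hall' i0).trans (hall' j0).symm)
  -- all the vertices of the class are next to `u + 1`
  have hcl : ∀ w, c w = c i → w = u ∨ w = u + (1 + 1) := by
    intro w hw
    have hadj : (cycleGraph (m + 5)).Adj (u + 1) u := by
      rw [cyc_adj]
      left
      exact add_sub_cancel_left u 1
    have h := hmod u w (u + 1) (hu.trans hw.symm) (by rw [hu]; exact hu') hadj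
    rw [cyc_adj] at h
    rcases h with h | h
    · left
      have : u + 1 - w - 1 = 0 := by rw [h]; exact sub_self _
      have h' : u - w = 0 := by rw [← this]; abel
      exact (sub_eq_zero.mp h').symm
    · right
      have h' : w = w - (u + 1) + (u + 1) := (sub_add_cancel _ _).symm
      rw [h', h]
      abel
  -- hence `u + 2` is in the class
  have hu2 : c (u + (1 + 1)) = c i := by
    rcases hcl i rfl with h | h <;> rcases hcl j hcij.symm with h' | h'
    · exact absurd (h.trans h'.symm) hij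
    · rw [← h']; exact hcij.symm
    · rw [← h]
    · exact absurd (h.trans h'.symm) hij
  -- and `u - 1` is not
  have hum : c (u - 1) ≠ c i := by
    intro h
    rcases hcl _ h with h | h
    · apply h1
      have : u - (u - 1) = 0 := by rw [h]; exact sub_self _
      rw [← this]; abel
    · apply h3
      have : u + (1 + 1) - (u - 1) = 0 := by rw [h]; exact sub_self _
      rw [← this]; abel
  have hadj : (cycleGraph (m + 5)).Adj (u - 1) u := by
    rw [cyc_adj]
    right
    exact sub_sub_cancel u 1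
  have h := hmod u (u + (1 + 1)) (u - 1) (hu.trans hu2.symm) (by rw [hu]; exact hum) hadj
  rw [cyc_adj] at h
  rcases h with h | h
  · apply h4
    have : 1 - (u - 1 - (u + (1 + 1))) = 0 := by rw [h]; exact sub_self _
    rw [← this]
    abel
  · apply h2
    have : u + (1 + 1) - (u - 1) - 1 = 0 := by rw [h]; exact sub_self _
    rw [← this]
    abel

/-! ## Paths -/

/-- An injective map with the right adjacencies is an induced path. -/
def mkPath {V : Type} (G : SimpleGraph V) (n : ℕ) (p : Fin (n + 1) → V)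
    (hp : Function.Injective p)
    (h : ∀ i j : Fin (n + 1), G.Adj (p i) (p j) ↔ (i.val + 1 = j.val ∨ j.val + 1 = i.val)) :
    pathGraph (n + 1) ↪g G where
  toFun := p
  inj' := hp
  map_rel_iff' := by
    intro a b
    rw [pathGraph_adj]
    exact h a b

theorem path3 {V : Type} (G : SimpleGraph V) (x z y : V) (hxz : G.Adj x z) (hzy : G.Adj z y)
    (hxy : x ≠ y) (hn : ¬ G.Adj x y) :
    ∃ p : pathGraph (2 + 1) ↪g G, p 0 = x ∧ p 1 = z ∧ p (Fin.last 2) = y := by
  have hn' : ¬ G.Adj y x := fun h => hn h.symm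
  refine ⟨mkPath G 2 ![x, z, y] ?_ ?_, rfl, rfl, rfl⟩
  · intro i j hij
    fin_cases i <;> fin_cases j <;>
      simp_all [hxz.ne, hxz.ne', hzy.ne, hzy.ne', Ne.symm hxy]
  · intro i j
    fin_cases i <;> fin_cases j <;>
      simp [hxz, hxz.symm, hzy, hzy.symm, hn, hn']

theorem path4 {V : Type} (G : SimpleGraph V) (x u v y : V) (h1 : G.Adj x u) (h2 : G.Adj u v)
    (h3 : G.Adj v y) (h4 : ¬ G.Adj x v) (h5 : ¬ G.Adj u y) (h6 : ¬ G.Adj x y)
    (h7 : x ≠ v) (h8 : u ≠ y) (h9 : x ≠ y) :
    ∃ p : pathGraph (3 + 1) ↪g G, p 0 = x ∧ p (Fin.last 3) = y := by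
  have h4' : ¬ G.Adj v x := fun h => h4 h.symm
  have h5' : ¬ G.Adj y u := fun h => h5 h.symm
  have h6' : ¬ G.Adj y x := fun h => h6 h.symm
  refine ⟨mkPath G 3 ![x, u, v, y] ?_ ?_, rfl, rfl⟩
  · intro i j hij
    fin_cases i <;> fin_cases j <;>
      simp_all [h1.ne, h1.ne', h2.ne, h2.ne', h3.ne, h3.ne', Ne.symm h7, Ne.symm h8, Ne.symm h9]
  · intro i j
    fin_cases i <;> fin_cases j <;>
      simp [h1, h1.symm, h2, h2.symm, h3, h3.symm, h4, h5, h6, h4', h5', h6']

/-! ## The graph `H = L(K_{3,3} ∖ e)` -/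

/-- The line graph of `K_{3,3}` minus an edge: the vertex `3 i + j` stands for the edge `a_i b_j`,
and `a_2 b_2` is missing. -/
def H8 : SimpleGraph (Fin 8) where
  Adj x y := x ≠ y ∧ (x.val / 3 = y.val / 3 ∨ x.val % 3 = y.val % 3)
  symm := ⟨by
    rintro x y ⟨h, h'⟩
    exact ⟨h.symm, h'.imp Eq.symm Eq.symm⟩⟩
  loopless := ⟨fun x h => h.1 rfl⟩

instance : DecidableRel H8.Adj := fun x y =>
  inferInstanceAs (Decidable (x ≠ y ∧ (x.val / 3 = y.val / 3 ∨ x.val % 3 = y.val % 3)))

instance : DecidableRel H8ᶜ.Adj := fun x y =>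
  decidable_of_iff (x ≠ y ∧ ¬ H8.Adj x y) (compl_adj H8 x y).symm

/-- The properties of `H` and of its complement that are used. -/
structure Good (H : SimpleGraph (Fin 8)) : Prop where
  p4 : ∀ x y, x ≠ y → ¬ H.Adj x y → ∃ u v, H.Adj x u ∧ H.Adj u v ∧ H.Adj v y ∧ ¬ H.Adj x v ∧
    ¬ H.Adj u y ∧ x ≠ v ∧ u ≠ y
  p3 : ∀ x y, x ≠ y → ¬ H.Adj x y → ∃ z, H.Adj x z ∧ H.Adj z y
  p2 : ∀ x, ∃ y, H.Adj x y
  ind : ∃ a b c : Fin 8, a ≠ b ∧ a ≠ c ∧ b ≠ c ∧ ¬ H.Adj a b ∧ ¬ H.Adj a c ∧ ¬ H.Adj b c

theorem good1 : Good H8 where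
  p4 := by decide
  p3 := by decide
  p2 := by decide
  ind := by decide

theorem good2 : Good H8ᶜ where
  p4 := by decide
  p3 := by decide
  p2 := by decide
  ind := by decide

set_option maxRecDepth 100000 in
theorem deg1 : ∀ S : Finset (Fin 8), S.card = 5 ∨ S.card = 7 →
    ∃ u ∈ S, (S.filter (fun v => H8.Adj u v)).card ≠ 2 := by decide

set_option maxRecDepth 100000 in
theorem deg2 : ∀ S : Finset (Fin 8), S.card = 5 ∨ S.card = 7 →
    ∃ u ∈ S, (S.filter (fun v => H8ᶜ.Adj u v)).card ≠ 2 := by decide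

/-- The cycle of odd length `n ≥ 5` is not an induced subgraph of a graph on `8` vertices with the
degree property. -/
theorem no_cycle (H : SimpleGraph (Fin 8)) [DecidableRel H.Adj]
    (hH : ∀ S : Finset (Fin 8), S.card = 5 ∨ S.card = 7 →
      ∃ u ∈ S, (S.filter (fun v => H.Adj u v)).card ≠ 2)
    (n : ℕ) (hn : 5 ≤ n) (hodd : Odd n) (f : cycleGraph n ↪g H) : False := by
  classical
  have hcard : n ≤ 8 := by
    have := Fintype.card_le_of_injective f f.injective
    simpa using this
  obtain ⟨k, hk⟩ := hodd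
  obtain ⟨m, rfl⟩ : ∃ m, n = m + 3 := ⟨n - 3, by omega⟩
  have hS : (Finset.univ.map f.toEmbedding).card = m + 3 := by simp
  obtain ⟨u, hu, hd⟩ := hH (Finset.univ.map f.toEmbedding) (by omega)
  rw [Finset.mem_map] at hu
  obtain ⟨i, -, rfl⟩ := hu
  apply hd
  have h1 : (Finset.univ.map f.toEmbedding).filter (fun v => H.Adj (f.toEmbedding i) v) =
      ((cycleGraph (m + 3)).neighborFinset i).map f.toEmbedding := by
    ext v
    simp only [Finset.mem_filter, Finset.mem_map, Finset.mem_univ, true_and, mem_neighborFinset]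
    constructor
    · rintro ⟨⟨j, rfl⟩, h⟩
      exact ⟨j, f.map_rel_iff.mp h, rfl⟩
    · rintro ⟨j, h, rfl⟩
      exact ⟨⟨j, rfl⟩, f.map_rel_iff.mpr h⟩
  rw [h1, Finset.card_map, card_neighborFinset_eq_degree, cycleGraph_degree_three_le]

/-- An odd cycle of length at least `5` in a lexicographic product lives in a factor. -/
theorem no_cycle_lex {α β : Type} (A : SimpleGraph α) (B : SimpleGraph β) (n : ℕ) (hn : 5 ≤ n)
    (hA : IsEmpty (cycleGraph n ↪g A)) (hB : IsEmpty (cycleGraph n ↪g B)) :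
    IsEmpty (cycleGraph n ↪g lex A B) := by
  refine ⟨fun f => ?_⟩
  obtain ⟨m, rfl⟩ : ∃ m, n = m + 5 := ⟨n - 5, by omega⟩
  have hf : ∀ i j, (cycleGraph (m + 5)).Adj i j ↔
      (A.Adj (f i).1 (f j).1 ∨ ((f i).1 = (f j).1 ∧ B.Adj (f i).2 (f j).2)) :=
    fun i j => f.map_rel_iff.symm
  rcases cycle_prime m (fun i => (f i).1) (by
    intro i j k hij hki hadj
    rw [hf] at hadj ⊢
    rcases hadj with h | ⟨h, _⟩
    · left
      rw [← hij]
      exact h
    · exact absurd h hki) with h | h
  · refine hA.false ⟨⟨fun i => (f i).1, h⟩, ?_⟩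
    intro i j
    rw [hf]
    constructor
    · exact Or.inl
    · rintro (h' | ⟨h', hb⟩)
      · exact h'
      · have hij := h h'
        subst hij
        exact absurd hb (B.loopless.irrefl _)
  · refine hB.false ⟨⟨fun i => (f i).2, ?_⟩, ?_⟩
    · intro i j hij
      exact f.injective (Prod.ext (h i j) hij)
    · intro i j
      rw [hf]
      constructor
      · intro hb
        exact Or.inr ⟨h i j, hb⟩
      · rintro (h' | ⟨_, hb⟩)
        · have := h i j
          rw [this] at h'
          exact absurd h' (A.loopless.irrefl _)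
        · exact hb

/-- Three pairwise non-adjacent vertices are not covered by two cliques. -/
theorem exists_out (H : SimpleGraph (Fin 8)) (hH : Good H) (A B : Set (Fin 8)) (hA : H.IsClique A)
    (hB : H.IsClique B) : ∃ z, z ∉ A ∧ z ∉ B := by
  obtain ⟨a, b, c, hab, hac, hbc, nab, nac, nbc⟩ := hH.ind
  by_contra hcon
  push Not at hcon
  by_cases ha : a ∈ A
  · have hb : b ∈ B := hcon b (fun h => nab (hA ha h hab))
    have hc : c ∈ B := hcon c (fun h => nac (hA ha h hac))
    exact nbc (hB hb hc hbc)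
  · have ha' : a ∈ B := hcon a ha
    by_cases hb : b ∈ A
    · have hc : c ∈ B := hcon c (fun h => nbc (hA hb h hbc))
      exact nac (hB ha' hc hac)
    · exact nab (hB ha' (hcon b hb) hab)

theorem clique_slice {α β : Type} (A : SimpleGraph α) (B : SimpleGraph β) (K : Set (α × β))
    (hK : (lex A B).IsClique K) (r : α) : B.IsClique {b | (r, b) ∈ K} := by
  intro b hb c hc hbc
  have := hK hb hc (fun h => hbc (congrArg Prod.snd h))
  rw [lex_adj] at this
  rcases this with h | ⟨_, h⟩
  · exact absurd h (A.loopless.irrefl _)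
  · exact h

/-- No even pair in `H[H]`. -/
theorem no_even (H : SimpleGraph (Fin 8)) (hH : Good H) (x y : Fin 8 × Fin 8) :
    ¬ EvenPair (lex H H) x y := by
  rintro ⟨hne, hn, hp⟩
  obtain ⟨a, b⟩ := x
  obtain ⟨c, d⟩ := y
  rw [lex_adj] at hn
  push Not at hn
  dsimp only at hn
  have key : ∃ p : pathGraph (3 + 1) ↪g lex H H, p 0 = (a, b) ∧ p (Fin.last 3) = (c, d) := by
    by_cases hac : a = c
    · subst hac
      have hbd : b ≠ d := fun h => hne (by rw [h])
      obtain ⟨u, v, h1, h2, h3, h4, h5, h6, h7⟩ := hH.p4 b d hbd (hn.2 rfl)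
      have hl : ∀ s t, (lex H H).Adj (a, s) (a, t) ↔ H.Adj s t := by
        intro s t
        rw [lex_adj]
        constructor
        · rintro (h | ⟨_, h⟩)
          · exact absurd h (H.loopless.irrefl _)
          · exact h
        · intro h
          exact Or.inr ⟨rfl, h⟩
      exact path4 (lex H H) (a, b) (a, u) (a, v) (a, d) ((hl _ _).mpr h1) ((hl _ _).mpr h2)
        ((hl _ _).mpr h3) (fun h => h4 ((hl _ _).mp h)) (fun h => h5 ((hl _ _).mp h))
        (fun h => hn.2 rfl ((hl _ _).mp h)) (fun h => h6 (congrArg Prod.snd h))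
        (fun h => h7 (congrArg Prod.snd h)) hne
    · obtain ⟨u, v, h1, h2, h3, h4, h5, h6, h7⟩ := hH.p4 a c hac hn.1
      have hl : ∀ (s t : Fin 8 × Fin 8), s.1 ≠ t.1 → ((lex H H).Adj s t → H.Adj s.1 t.1) := by
        intro s t hst h
        rw [lex_adj] at h
        rcases h with h | ⟨h, _⟩
        · exact h
        · exact absurd h hst
      exact path4 (lex H H) (a, b) (u, b) (v, b) (c, d) (Or.inl h1) (Or.inl h2) (Or.inl h3)
        (fun h => h4 (hl _ _ h6 h)) (fun h => h5 (hl _ _ h7 h)) (fun h => hn.1 (hl _ _ hac h))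
        (fun h => h6 (congrArg Prod.fst h)) (fun h => h7 (congrArg Prod.fst h)) hne
  obtain ⟨p, h0, h3⟩ := key
  have := hp 3 p h0 h3
  exact absurd this (by decide)

/-- No odd pair of maximal cliques in `H[H]`. -/
theorem no_odd (H : SimpleGraph (Fin 8)) (hH : Good H) (K₁ K₂ : Set (Fin 8 × Fin 8))
    (h₁ : Maximal (fun K => (lex H H).IsClique K) K₁)
    (h₂ : Maximal (fun K => (lex H H).IsClique K) K₂) : ¬ OddPair (lex H H) K₁ K₂ := by
  intro hodd
  have hs : Subsingleton (Fin (0 + 1)) := inferInstanceAs (Subsingleton (Fin 1))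
  -- the cliques are disjoint
  have hdis : ∀ x, x ∈ K₁ → x ∉ K₂ := by
    intro x hx1 hx2
    have := hodd 0 (mkPath (lex H H) 0 (fun _ => x) (Function.injective_of_subsingleton _)
      (by
        intro i j
        have hi : i = j := Subsingleton.elim _ _
        subst hi
        simp)) hx1 hx2 (by
          intro i hi
          exact absurd (Subsingleton.elim _ _) hi)
    exact absurd this (by decide)
  -- two distinct non-adjacent vertices
  obtain ⟨x, hx, y, hy, hxy, hn⟩ : ∃ x ∈ K₁, ∃ y ∈ K₂, x ≠ y ∧ ¬ (lex H H).Adj x y := by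
    by_contra hcon
    push Not at hcon
    have hcl : (lex H H).IsClique (K₁ ∪ K₂) := by
      rintro s (hs | hs) t (ht | ht) hst
      · exact h₁.1 hs ht hst
      · exact hcon s hs t ht hst
      · exact (hcon t ht s hs hst.symm).symm
      · exact h₂.1 hs ht hst
    have hle : K₁ ∪ K₂ ⊆ K₁ := h₁.2 hcl Set.subset_union_left
    have hemp : K₂ = ∅ := by
      ext z
      constructor
      · intro hz
        exact absurd hz (hdis z (hle (Or.inr hz)))
      · intro hz
        exact absurd hz (Set.notMem_empty z)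
    have hle2 : ({(0, 0)} : Set (Fin 8 × Fin 8)) ⊆ K₂ :=
      h₂.2 (by simp) (by rw [hemp]; exact Set.empty_subset _)
    rw [hemp] at hle2
    exact hle2 (Set.mem_singleton _)
  -- a common neighbour outside the two cliques
  obtain ⟨z, hxz, hzy, hz⟩ : ∃ z, (lex H H).Adj x z ∧ (lex H H).Adj z y ∧ z ∉ K₁ ∪ K₂ := by
    have hr : ∃ r, H.Adj x.1 r ∧ H.Adj r y.1 := by
      by_cases hac : x.1 = y.1
      · obtain ⟨r, hr⟩ := hH.p2 x.1
        exact ⟨r, hr, by rw [← hac]; exact hr.symm⟩
      · exact hH.p3 _ _ hac (fun h => hn (Or.inl h))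
    obtain ⟨r, hr1, hr2⟩ := hr
    obtain ⟨e, he1, he2⟩ := exists_out H hH _ _ (clique_slice H H K₁ h₁.1 r)
      (clique_slice H H K₂ h₂.1 r)
    exact ⟨(r, e), Or.inl hr1, Or.inl hr2, fun h => h.elim he1 he2⟩
  obtain ⟨p, hp0, hp1, hp2⟩ := path3 (lex H H) x z y hxz hzy hxy hn
  have := hodd 2 p (by rw [hp0]; exact hx) (by rw [hp2]; exact hy) (by
    intro i hi0 hi2
    have hi : i = 1 := by
      fin_cases i
      · exact absurd rfl hi0
      · rfl
      · exact absurd rfl hi2
    rw [hi, hp1]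
    exact hz)
  exact absurd this (by decide)

/-- The product is Berge. -/
theorem berge : Berge (lex H8 H8) := by
  intro n hn hodd
  have hn5 : 5 ≤ n := by
    rcases Nat.eq_or_lt_of_le hn with h | h
    · subst h
      exact absurd hodd (by decide)
    · exact h
  have e1 : IsEmpty (cycleGraph n ↪g H8) := ⟨fun f => no_cycle H8 deg1 n hn5 hodd f⟩
  have e2 : IsEmpty (cycleGraph n ↪g H8ᶜ) := ⟨fun f => no_cycle H8ᶜ deg2 n hn5 hodd f⟩
  refine ⟨no_cycle_lex H8 H8 n hn5 e1 e1, ⟨fun f => ?_⟩⟩
  have e3 : IsEmpty (cycleGraph n ↪g (lex H8 H8)ᶜ) := by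
    rw [compl_lex]
    exact no_cycle_lex H8ᶜ H8ᶜ n hn5 e2 e2
  refine e3.false ⟨f.toEmbedding, ?_⟩
  intro i j
  have h := f.map_rel_iff (a := i) (b := j)
  rw [compl_adj] at h ⊢
  change (f i ≠ f j ∧ ¬ (lex H8 H8).Adj (f i) (f j)) ↔ _
  constructor
  · rintro ⟨hij, hna⟩
    by_contra hc
    exact hna (h.mpr ⟨fun h' => hij (by rw [h']), hc⟩)
  · intro hadj
    refine ⟨fun h' => hadj.ne (f.injective h'), fun h' => ?_⟩
    exact (h.mp h').2 hadj

/-- **The statement of the question is false.** There is a Berge graph `G` with at least two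
vertices such that neither `G` nor its complement has an even pair, and neither `G` nor its
complement has an odd pair of cliques formed by two of its maximal cliques. -/
theorem result : ∃ (V : Type) (_ : Fintype V) (G : SimpleGraph V), 2 ≤ Fintype.card V ∧ Berge G ∧
    (∀ x y, ¬ EvenPair G x y) ∧ (∀ x y, ¬ EvenPair Gᶜ x y) ∧
    (∀ K₁ K₂ : Set V, Maximal (fun K => G.IsClique K) K₁ → Maximal (fun K => G.IsClique K) K₂ →
      ¬ OddPair G K₁ K₂) ∧
    (∀ K₁ K₂ : Set V, Maximal (fun K => Gᶜ.IsClique K) K₁ → Maximal (fun K => Gᶜ.IsClique K) K₂ →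
      ¬ OddPair Gᶜ K₁ K₂) := by
  refine ⟨Fin 8 × Fin 8, inferInstance, lex H8 H8, by simp, berge, no_even H8 good1, ?_,
    no_odd H8 good1, ?_⟩
  · rw [compl_lex]
    exact no_even H8ᶜ good2
  · rw [compl_lex]
    exact no_odd H8ᶜ good2

end Pool.Agent.Results.MP_42d775_co.Counterexample
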